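import Pool.Agent.Helper1_NP9.Stmts

/-!
Squad NP9, module FB: the real inequality FB (helper81).
-/

set_option autoImplicit false

namespace Pool.Agent.NP9.H81

open Finset Pool.Agent.NP9

/-- The common estimates of the real inequalities, the value of `F` being unknown. -/
theorem sz_est {n F c : ℕ} {K v G ρ : ℝ} (h : Sz n F c K v G ρ) :
    (0 : ℝ) < (2 * (c : ℝ)) ^ n / (n.factorial : ℝ) ∧
    |ρ - 2 * v * G - (2 * (c : ℝ)) ^ n / (n.factorial : ℝ)|
      ≤ 0.0021 * ((2 * (c : ℝ)) ^ n / (n.factorial : ℝ) / (F : ℝ)) ∧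
    (2 * (c : ℝ)) ^ n * (1 - 1 / (8000 * (F : ℝ))) ≤ K := by
  obtain ⟨n1, F1, c1, K1, v1, r1⟩ := h
  have hN : (1 : ℝ) ≤ n := by exact_mod_cast n1
  have hFr : (1 : ℝ) ≤ F := by exact_mod_cast F1
  have hcr : 1000 * ((n : ℝ) + 1) ^ 2 * F ≤ c := by exact_mod_cast c1
  have hN2 : (4 : ℝ) * n ≤ ((n : ℝ) + 1) ^ 2 := by nlinarith [sq_nonneg ((n : ℝ) - 1)]
  have hc4 : 4000 * ((n : ℝ) * F) ≤ c := by
    have := mul_le_mul_of_nonneg_right hN2 (by linarith : (0 : ℝ) ≤ F)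
    linarith
  have hcF : 4000 * (F : ℝ) ≤ c := by
    have := mul_le_mul_of_nonneg_right hN (by linarith : (0 : ℝ) ≤ F)
    linarith
  have hc0 : (0 : ℝ) < c := by linarith
  have hx0 : (0 : ℝ) < 2 * (c : ℝ) := by linarith
  have hT0 : (0 : ℝ) < (2 * (c : ℝ)) ^ n := pow_pos hx0 n
  have hF0 : (0 : ℝ) < F := by linarith
  have hf0 : (0 : ℝ) < (n.factorial : ℝ) := by exact_mod_cast n.factorial_pos
  have hf1 : (1 : ℝ) ≤ (n.factorial : ℝ) := by exact_mod_cast n.factorial_pos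
  have hL0 : (0 : ℝ) < (2 * (c : ℝ)) ^ n / (n.factorial : ℝ) := div_pos hT0 hf0
  -- Bernoulli
  have hB : (2 * (c : ℝ)) ^ n * (1 - n / (2 * (c : ℝ))) ≤ (2 * (c : ℝ) - 1) ^ n := by
    have h1 : (1 : ℝ) + n * (-(1 / (2 * (c : ℝ)))) ≤ (1 + (-(1 / (2 * (c : ℝ))))) ^ n := by
      apply one_add_mul_le_pow
      have : 1 / (2 * (c : ℝ)) ≤ 1 := by
        rw [div_le_one hx0]; linarith
      linarith
    have h2 : (2 * (c : ℝ) - 1) ^ n = (2 * (c : ℝ)) ^ n * (1 + (-(1 / (2 * (c : ℝ))))) ^ n := by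
      rw [← mul_pow]
      congr 1
      field_simp
      ring
    rw [h2]
    apply mul_le_mul_of_nonneg_left _ hT0.le
    calc (1 : ℝ) - n / (2 * (c : ℝ)) = 1 + n * (-(1 / (2 * (c : ℝ)))) := by ring
      _ ≤ _ := h1
  have hq : (n : ℝ) / (2 * (c : ℝ)) ≤ 1 / (8000 * F) := by
    rw [div_le_div_iff₀ hx0 (by positivity)]
    linarith
  have hK3 : (2 * (c : ℝ)) ^ n * (1 - 1 / (8000 * (F : ℝ))) ≤ K := by
    refine le_trans ?_ (hB.trans K1)
    exact mul_le_mul_of_nonneg_left (by linarith) hT0.le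
  have h8k : 1 / (8000 * (F : ℝ)) ≤ 1 / 2 := by
    rw [div_le_div_iff₀ (by positivity) (by norm_num)]
    linarith
  have hK2 : (2 * (c : ℝ)) ^ n / 2 ≤ K := by
    refine le_trans ?_ hK3
    have := mul_le_mul_of_nonneg_left h8k hT0.le
    linarith
  have hK0 : 0 < K := by linarith
  -- the second error term
  have hv : 4 * (c : ℝ) * (2 * (c : ℝ)) ^ n / v ≤ 0.08 := by
    rw [v1, div_le_iff₀ (by positivity)]
    have := mul_le_mul_of_nonneg_left hK2 hc0.le
    nlinarith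
  -- L ≥ 2c
  have hL2 : 2 * (c : ℝ) ≤ (2 * (c : ℝ)) ^ n / (n.factorial : ℝ) := by
    obtain ⟨m, rfl⟩ : ∃ m, n = m + 1 := ⟨n - 1, by omega⟩
    rw [le_div_iff₀ hf0, pow_succ, mul_comm (_ ^ m)]
    apply mul_le_mul_of_nonneg_left _ hx0.le
    have h1 : (m + 1).factorial ≤ (m + 1) ^ m := by
      clear * -
      induction m with
      | zero => simp
      | succ k ih =>
        rw [Nat.factorial_succ, pow_succ, mul_comm ((k + 1 + 1) ^ k)]
        apply Nat.mul_le_mul_left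
        exact ih.trans (Nat.pow_le_pow_left (by omega) k)
    have h2 : ((m + 1).factorial : ℝ) ≤ ((m : ℝ) + 1) ^ m := by exact_mod_cast h1
    refine h2.trans (pow_le_pow_left₀ (by positivity) ?_ m)
    push_cast at hc4 hN
    have h4 : (m : ℝ) + 1 ≤ ((m : ℝ) + 1) * F := le_mul_of_one_le_right (by positivity) hFr
    linarith
  set L : ℝ := (2 * (c : ℝ)) ^ n / (n.factorial : ℝ) with hL
  have h8 : (0.08 : ℝ) ≤ 0.00001 * (L / F) := by
    have h1 : 8000 ≤ L / F := by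
      rw [le_div_iff₀ hF0]
      linarith
    linarith
  -- the first error term
  have h9 : (n : ℝ) ^ 2 / (c : ℝ) ≤ 1 / (1000 * F) := by
    rw [div_le_div_iff₀ hc0 (by positivity)]
    have h1 : (n : ℝ) ^ 2 ≤ ((n : ℝ) + 1) ^ 2 := by nlinarith
    have h2 := mul_le_mul_of_nonneg_right h1 hF0.le
    linarith
  have h10 : 2 * ((n : ℝ) ^ 2 / (c : ℝ)) * L ≤ 0.002 * (L / F) := by
    have h1 := mul_le_mul_of_nonneg_right h9 hL0.le
    have h2 : 1 / (1000 * (F : ℝ)) * L = 0.001 * (L / F) := by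
      field_simp
      norm_num
    linarith
  have h11 : 0 ≤ L / F := by positivity
  refine ⟨hL0, ?_, hK3⟩
  linarith

theorem fb : FbStmt := by
  intro n F c K v ρ G h hK hlt
  obtain ⟨hL0, he, hK3⟩ := sz_est h
  have hFr : (1 : ℝ) ≤ F := by exact_mod_cast h.F1
  have hF0 : (0 : ℝ) < F := by linarith
  have hf0 : (0 : ℝ) < (n.factorial : ℝ) := by exact_mod_cast n.factorial_pos
  set L : ℝ := (2 * (c : ℝ)) ^ n / (n.factorial : ℝ) with hL
  set Z : ℝ := ρ - 2 * v * (G : ℝ) with hZ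
  have hT : (2 * (c : ℝ)) ^ n = n.factorial * L := by
    rw [hL]; field_simp
  rw [hT] at hK hK3
  rw [abs_le] at he
  have h1 : L / F ≤ L := div_le_self hL0.le hFr
  have h2 : F * (L / F) = L := by field_simp
  have hZ0 : 0 < Z := by linarith
  have h5 : |K - F * Z| < Z / 2 := by
    apply abs_lt_of_sq_lt_sq _ (by linarith)
    nlinarith
  rw [abs_lt] at h5
  have h3 : F * (L - 0.0021 * (L / F)) ≤ F * Z :=
    mul_le_mul_of_nonneg_left (by linarith) hF0.le
  have h4 : F * Z ≤ F * (L + 0.0021 * (L / F)) :=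
    mul_le_mul_of_nonneg_left (by linarith) hF0.le
  have h6 : F * (L - 0.0021 * (L / F)) = F * L - 0.0021 * L := by
    rw [mul_sub, mul_left_comm, h2]
  have h7 : F * (L + 0.0021 * (L / F)) = F * L + 0.0021 * L := by
    rw [mul_add, mul_left_comm, h2]
  -- F < n! + 1
  have h8 : (F : ℝ) * L < (n.factorial + 1) * L := by linarith
  have h9 : (F : ℝ) < n.factorial + 1 := lt_of_mul_lt_mul_right h8 hL0.le
  -- n! < F + 1
  have h10 : (n.factorial : ℝ) * L * (1 - 1 / (8000 * (F : ℝ))) < (F + 0.51) * L := by linarith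
  have h11 : (F + 0.51) * L ≤ ((F : ℝ) + 1) * L * (1 - 1 / (8000 * (F : ℝ))) := by
    have e1 : ((F : ℝ) + 1) * L * (1 - 1 / (8000 * (F : ℝ))) =
        ((F : ℝ) + 1) * L - (1 / 8000) * L - (1 / 8000) * (L / F) := by
      field_simp
      ring
    rw [e1]
    linarith
  have h12 : (0 : ℝ) < 1 - 1 / (8000 * (F : ℝ)) := by
    have : 1 / (8000 * (F : ℝ)) ≤ 1 / 2 := by
      rw [div_le_div_iff₀ (by positivity) (by norm_num)]
      linarith
    linarith
  have h13 : (n.factorial : ℝ) * L < (F + 1) * L := by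
    apply lt_of_mul_lt_mul_right _ h12.le
    linarith
  have h14 : (n.factorial : ℝ) < F + 1 := lt_of_mul_lt_mul_right h13 hL0.le
  have h15 : F < n.factorial + 1 := by exact_mod_cast h9
  have h16 : n.factorial < F + 1 := by exact_mod_cast h14
  omega

end Pool.Agent.NP9.H81
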