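import Pool.Agent.Helper1_NP9.Stmts

/-!
Squad NP9, module SER: the expansion of the quotient Y_{v+1}(c) / Y_v(c-n) in base 2v (helper81).
-/

set_option autoImplicit false

namespace Pool.Agent.NP9.H81

open Finset Pool.Agent.NP9

theorem y_mono (a : ℤ) (ha : 1 ≤ a) (n : ℕ) : 0 ≤ Y a n ∧ Y a n < Y a (n + 1) := by
  induction n with
  | zero => simp [Y]
  | succ n ih =>
    have h : Y a (n + 1 + 1) = 2 * a * Y a (n + 1) - Y a n := rfl
    refine ⟨by linarith [ih.1, ih.2], ?_⟩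
    rw [h]
    have h2 : 0 ≤ (a - 1) * Y a (n + 1) := mul_nonneg (by linarith) (by linarith [ih.1, ih.2])
    nlinarith [ih.1, ih.2]

theorem y_pos (a : ℤ) (ha : 1 ≤ a) (m : ℕ) (hm : 1 ≤ m) : 0 < Y a m := by
  obtain ⟨n, rfl⟩ : ∃ n, m = n + 1 := ⟨m - 1, by omega⟩
  have := y_mono a ha n
  linarith [this.1, this.2]

/-- The coefficients of the denominator. -/
def gg (m j : ℕ) : ℝ := (-1) ^ j * (((m - 1 - j).choose j : ℕ) : ℝ)

theorem gg_zero {m j : ℕ} (h : m - 1 < 2 * j) : gg m j = 0 := by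
  unfold gg
  rw [Nat.choose_eq_zero_of_lt (by omega)]
  simp

/-- The Cauchy product of the (finite) denominator and the series of the digits. -/
theorem conv (a P : ℕ → ℝ) (m c : ℕ) (hm : 1 ≤ m) (w A : ℝ)
    (hA : HasSum (fun s => a s * w ^ s) A)
    (hrec : ∀ s, ∑ j ∈ range (s / 2 + 1), gg m j * a (s - 2 * j) = P s)
    (hP : ∀ s, c ≤ s → P s = 0) :
    (∑ j ∈ range m, gg m j * w ^ (2 * j)) * A = ∑ s ∈ range c, P s * w ^ s := by
  have h1 : ∀ j : ℕ,
      HasSum (fun s => if 2 * j ≤ s then a (s - 2 * j) * w ^ s else 0) (w ^ (2 * j) * A) := by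
    intro j
    have hinj : Function.Injective (fun s : ℕ => s + 2 * j) := add_left_injective (2 * j)
    rw [← hinj.hasSum_iff]
    · have : ((fun s => if 2 * j ≤ s then a (s - 2 * j) * w ^ s else 0) ∘ fun s => s + 2 * j) =
          fun s => w ^ (2 * j) * (a s * w ^ s) := by
        funext s
        simp only [Function.comp]
        rw [if_pos (by omega), Nat.add_sub_cancel, pow_add]
        ring
      rw [this]
      exact hA.mul_left _
    · intro x hx
      have : ¬ 2 * j ≤ x := by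
        intro h
        exact hx ⟨x - 2 * j, by simp only; omega⟩
      rw [if_neg this]
  have h2 : HasSum
      (fun s => ∑ j ∈ range m, gg m j * (if 2 * j ≤ s then a (s - 2 * j) * w ^ s else 0))
      (∑ j ∈ range m, gg m j * (w ^ (2 * j) * A)) :=
    hasSum_sum fun j _ => (h1 j).mul_left _
  have h3 : (fun s => ∑ j ∈ range m, gg m j * (if 2 * j ≤ s then a (s - 2 * j) * w ^ s else 0)) =
      fun s => P s * w ^ s := by
    funext s
    rw [← hrec s, sum_mul]
    have e1 : ∑ j ∈ range m, gg m j * (if 2 * j ≤ s then a (s - 2 * j) * w ^ s else 0) =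
        ∑ j ∈ range (m + (s / 2 + 1)),
          gg m j * (if 2 * j ≤ s then a (s - 2 * j) * w ^ s else 0) := by
      apply sum_subset (range_mono (by omega))
      intro j _ hj
      rw [mem_range] at hj
      rw [gg_zero (by omega), zero_mul]
    have e2 : ∑ j ∈ range (s / 2 + 1), gg m j * a (s - 2 * j) * w ^ s =
        ∑ j ∈ range (m + (s / 2 + 1)),
          gg m j * (if 2 * j ≤ s then a (s - 2 * j) * w ^ s else 0) := by
      have e3 : ∑ j ∈ range (s / 2 + 1), gg m j * a (s - 2 * j) * w ^ s =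
          ∑ j ∈ range (s / 2 + 1),
            gg m j * (if 2 * j ≤ s then a (s - 2 * j) * w ^ s else 0) := by
        apply sum_congr rfl
        intro j hj
        rw [mem_range] at hj
        rw [if_pos (by omega), mul_assoc]
      rw [e3]
      apply sum_subset (range_mono (by omega))
      intro j _ hj
      rw [mem_range] at hj
      rw [if_neg (by omega), mul_zero]
    rw [e1, e2]
  rw [h3] at h2
  have h4 : HasSum (fun s => P s * w ^ s) (∑ s ∈ range c, P s * w ^ s) := by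
    apply hasSum_sum_of_ne_finset_zero
    intro s hs
    rw [mem_range] at hs
    rw [hP s (by omega), zero_mul]
  have h5 := h2.unique h4
  rw [← h5, sum_mul]
  apply sum_congr rfl
  intro j _
  ring

/-- The tail of the series of the digits. -/
theorem tail (a : ℕ → ℝ) (c w : ℝ) (n : ℕ) (hc : 0 ≤ c) (hw : 0 ≤ w) (hcw : 2 * c * w ≤ 1 / 2)
    (ha : ∀ s, |a s| ≤ 2 * (2 * c) ^ s) :
    ∃ A : ℝ, HasSum (fun s => a s * w ^ s) A ∧
      |A - ∑ s ∈ range (n + 1), a s * w ^ s| ≤ 4 * (2 * c * w) ^ (n + 1) := by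
  have hr0 : 0 ≤ 2 * c * w := by positivity
  have hr1 : 2 * c * w < 1 := by linarith
  have hb : ∀ s, ‖a s * w ^ s‖ ≤ 2 * (2 * c * w) ^ s := by
    intro s
    rw [Real.norm_eq_abs, abs_mul, abs_of_nonneg (pow_nonneg hw s), mul_pow]
    have := mul_le_mul_of_nonneg_right (ha s) (pow_nonneg hw s)
    linarith
  have hgs : HasSum (fun s : ℕ => (2 * c * w) ^ s) (1 - 2 * c * w)⁻¹ :=
    hasSum_geometric_of_lt_one hr0 hr1
  have hs : Summable (fun s => a s * w ^ s) :=
    Summable.of_norm_bounded (hgs.summable.mul_left 2) hb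
  refine ⟨∑' s, a s * w ^ s, hs.hasSum, ?_⟩
  have h1 : ∑' s, a s * w ^ s - ∑ s ∈ range (n + 1), a s * w ^ s =
      ∑' s, a (s + (n + 1)) * w ^ (s + (n + 1)) := by
    rw [← hs.sum_add_tsum_nat_add (n + 1)]
    ring
  rw [h1]
  have hg2 : HasSum (fun s : ℕ => 2 * (2 * c * w) ^ (s + (n + 1)))
      (2 * (2 * c * w) ^ (n + 1) * (1 - 2 * c * w)⁻¹) := by
    have e : (fun s : ℕ => 2 * (2 * c * w) ^ (s + (n + 1))) =
        fun s : ℕ => 2 * (2 * c * w) ^ (n + 1) * (2 * c * w) ^ s := by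
      funext s
      rw [pow_add]
      ring
    rw [e]
    exact hgs.mul_left _
  have h2 : ‖∑' s, a (s + (n + 1)) * w ^ (s + (n + 1))‖ ≤
      2 * (2 * c * w) ^ (n + 1) * (1 - 2 * c * w)⁻¹ :=
    tsum_of_norm_bounded hg2 fun s => hb _
  rw [Real.norm_eq_abs] at h2
  refine h2.trans ?_
  have h3 : (1 - 2 * c * w)⁻¹ ≤ 2 := by
    rw [inv_le_comm₀ (by linarith) (by norm_num)]
    linarith
  have h4 : 0 ≤ 2 * (2 * c * w) ^ (n + 1) := by positivity
  have h5 := mul_le_mul_of_nonneg_left h3 h4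
  linarith

/-- Module SER. -/
theorem ser (hsea : SeaStmt) (hseb : SebStmt) (hsec : SecStmt) : SerStmt := by
  intro c n v hn hc hv
  obtain ⟨a, ha1, ha2, ha3⟩ := hsec c n hn hc
  have hnn : n ≤ n ^ 2 := Nat.le_self_pow (by norm_num) n
  obtain ⟨m, hm⟩ : ∃ m, m = c - n := ⟨_, rfl⟩
  have hm1 : 1 ≤ m := by omega
  have hcn : c = m + n := by omega
  rw [← hm] at ha1 ⊢
  have hc0 : (0 : ℝ) < c := by
    have : 0 < c := by omega
    exact_mod_cast this
  have hvr : 2 * (c : ℝ) ≤ v := by exact_mod_cast hv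
  have hv0 : (0 : ℝ) < v := by linarith
  set V : ℝ := 2 * (v : ℝ) with hV
  have hV0 : 0 < V := by positivity
  have hVne : V ≠ 0 := hV0.ne'
  set w : ℝ := V⁻¹ with hw
  have hVw : V * w = 1 := mul_inv_cancel₀ hVne
  have hcw : 2 * (c : ℝ) * w ≤ 1 / 2 := by
    rw [hw, ← div_eq_mul_inv, div_le_iff₀ hV0]
    linarith
  obtain ⟨A, hA, hT⟩ := tail (fun s => (a s : ℝ)) c w n hc0.le (by positivity) hcw ha2
  -- the numerator
  have hnum : (Y ((v : ℤ) + 1) c : ℝ) =
      V ^ (c - 1) * ∑ s ∈ range c, (((2 * c - 1 - s).choose s : ℕ) : ℝ) * w ^ s := by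
    rw [hsea c v (by omega)]
    push_cast
    rw [← hV, mul_sum]
    apply sum_congr rfl
    intro s hs
    rw [mem_range] at hs
    have e : V ^ (c - 1) * w ^ s = V ^ (c - 1 - s) := by
      have : c - 1 = (c - 1 - s) + s := by omega
      conv_lhs => rw [this]
      rw [pow_add, mul_assoc, ← mul_pow, hVw, one_pow, mul_one]
    rw [← e]
    ring
  -- the denominator
  have hden : (Y (v : ℤ) m : ℝ) = V ^ (m - 1) * ∑ j ∈ range m, gg m j * w ^ (2 * j) := by
    rw [hseb m v hm1]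
    push_cast
    rw [← hV, mul_sum]
    apply sum_congr rfl
    intro j hj
    by_cases h : m - 1 < 2 * j
    · rw [gg_zero h, Nat.choose_eq_zero_of_lt (by omega)]
      simp
    · have e : V ^ (m - 1) * w ^ (2 * j) = V ^ (m - 1 - 2 * j) := by
        have : m - 1 = (m - 1 - 2 * j) + 2 * j := by omega
        conv_lhs => rw [this]
        rw [pow_add, mul_assoc, ← mul_pow, hVw, one_pow, mul_one]
      rw [← e]
      unfold gg
      ring
  have hpos : (0 : ℝ) < (Y (v : ℤ) m : ℝ) := by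
    have h1 : (1 : ℤ) ≤ (v : ℤ) := by
      have : 1 ≤ v := by omega
      exact_mod_cast this
    exact_mod_cast y_pos v h1 m hm1
  -- the quotient
  have hcv := conv (fun s => (a s : ℝ)) (fun s => (((2 * c - 1 - s).choose s : ℕ) : ℝ)) m c hm1
    w A hA (by
      intro s
      have h1 := congrArg (fun z : ℤ => (z : ℝ)) (ha1 s)
      push_cast at h1
      unfold gg
      exact h1) (by
      intro s hs
      rw [Nat.choose_eq_zero_of_lt (by omega)]
      simp)
  have hq : (Y ((v : ℤ) + 1) c : ℝ) / (Y (v : ℤ) m : ℝ) = V ^ n * A := by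
    rw [div_eq_iff hpos.ne', hnum, ← hcv, hden]
    have e : V ^ (c - 1) = V ^ n * V ^ (m - 1) := by
      rw [← pow_add]
      congr 1
      omega
    rw [e]
    ring
  -- the integer part
  have hG0 : 0 ≤ ∑ s ∈ range n, a s * (2 * (v : ℤ)) ^ (n - 1 - s) := by
    apply sum_nonneg
    intro s hs
    rw [mem_range] at hs
    exact mul_nonneg (ha3 s hs.le).1 (by positivity)
  refine ⟨(∑ s ∈ range n, a s * (2 * (v : ℤ)) ^ (n - 1 - s)).toNat, ?_⟩
  have hG1 : (((∑ s ∈ range n, a s * (2 * (v : ℤ)) ^ (n - 1 - s)).toNat : ℕ) : ℝ) =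
      ∑ s ∈ range n, (a s : ℝ) * V ^ (n - 1 - s) := by
    have h1 : (((∑ s ∈ range n, a s * (2 * (v : ℤ)) ^ (n - 1 - s)).toNat : ℕ) : ℤ) =
        ∑ s ∈ range n, a s * (2 * (v : ℤ)) ^ (n - 1 - s) := Int.toNat_of_nonneg hG0
    have h2 := congrArg (fun z : ℤ => (z : ℝ)) h1
    push_cast at h2
    rw [hV]
    exact h2
  rw [hG1, hq]
  have hsplit : V ^ n * ∑ s ∈ range (n + 1), (a s : ℝ) * w ^ s =
      V * ∑ s ∈ range n, (a s : ℝ) * V ^ (n - 1 - s) + a n := by
    rw [sum_range_succ, mul_add, mul_sum, mul_sum]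
    congr 1
    · apply sum_congr rfl
      intro s hs
      rw [mem_range] at hs
      have e : V ^ n * w ^ s = V * V ^ (n - 1 - s) := by
        have : n = (n - 1 - s) + 1 + s := by omega
        conv_lhs => rw [this]
        rw [pow_add _ _ s, mul_assoc, ← mul_pow, hVw, one_pow, mul_one, pow_succ, mul_comm]
      calc V ^ n * ((a s : ℝ) * w ^ s) = (a s : ℝ) * (V ^ n * w ^ s) := by ring
        _ = _ := by rw [e]; ring
    · rw [mul_left_comm, ← mul_pow, hVw, one_pow, mul_one]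
  have hT2 : |V ^ n * (A - ∑ s ∈ range (n + 1), (a s : ℝ) * w ^ s)| ≤
      4 * (c : ℝ) * (2 * (c : ℝ)) ^ n / v := by
    rw [abs_mul, abs_of_pos (pow_pos hV0 n)]
    have h1 := mul_le_mul_of_nonneg_left hT (pow_pos hV0 n).le
    refine h1.trans (le_of_eq ?_)
    have e1 : V ^ n * (2 * (c : ℝ) * w) ^ n = (2 * (c : ℝ)) ^ n := by
      rw [← mul_pow]
      congr 1
      calc V * (2 * (c : ℝ) * w) = 2 * (c : ℝ) * (V * w) := by ring
        _ = _ := by rw [hVw, mul_one]
    have e2 : 2 * (c : ℝ) * w = c / v := by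
      rw [hw, hV]
      field_simp
    calc V ^ n * (4 * (2 * (c : ℝ) * w) ^ (n + 1))
        = 4 * (V ^ n * (2 * (c : ℝ) * w) ^ n) * (2 * (c : ℝ) * w) := by rw [pow_succ]; ring
      _ = 4 * (c : ℝ) * (2 * (c : ℝ)) ^ n / v := by rw [e1, e2]; ring
  have hfin : V ^ n * A - V * ∑ s ∈ range n, (a s : ℝ) * V ^ (n - 1 - s) -
      (2 * (c : ℝ)) ^ n / (n.factorial : ℝ) =
      ((a n : ℝ) - (2 * (c : ℝ)) ^ n / (n.factorial : ℝ)) +
        V ^ n * (A - ∑ s ∈ range (n + 1), (a s : ℝ) * w ^ s) := by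
    rw [mul_sub, hsplit]
    ring
  rw [hfin]
  exact (abs_add_le _ _).trans (add_le_add (ha3 n le_rfl).2 hT2)

end Pool.Agent.NP9.H81
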